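import Pool.Agent.H11.LGR.Targets

/-!
# The exponent for the prime quotients
-/

set_option autoImplicit false

open MvPolynomial Pool.Agent.H87.CLG Pool.Agent.H11.LGR

namespace Pool.Agent.H70.LGR

/-- every element is a product of elements of `X` -/
theorem exists_list {Γ : Type*} [Group Γ] {X : Set Γ} (hX : GX X) (γ : Γ) :
    ∃ l : List Γ, (∀ x ∈ l, x ∈ X) ∧ l.prod = γ := by
  have h : γ ∈ Subgroup.closure X := by
    rw [hX.gen]
    exact Subgroup.mem_top γ
  induction h using Subgroup.closure_induction with
  | mem x hx => exact ⟨[x], fun y hy => by rw [List.mem_singleton.1 hy]; exact hx,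
      List.prod_singleton⟩
  | one => exact ⟨[], fun _ hy => absurd hy List.not_mem_nil, List.prod_nil⟩
  | mul x y _ _ ihx ihy =>
    obtain ⟨l, hl, rfl⟩ := ihx
    obtain ⟨l', hl', rfl⟩ := ihy
    refine ⟨l ++ l', ?_, List.prod_append⟩
    intro z hz
    rcases List.mem_append.1 hz with h | h
    · exact hl z h
    · exact hl' z h
  | inv x _ ih =>
    obtain ⟨l, hl, rfl⟩ := ih
    refine ⟨(l.map fun y => y⁻¹).reverse, ?_, (List.prod_inv_reverse l).symm⟩
    intro z hz
    rw [List.mem_reverse, List.mem_map] at hz
    obtain ⟨y, hy, rfl⟩ := hz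
    exact hX.inv y (hl y hy)

theorem pf_DME (hDOM : T_DOM) : T_DME := by
  intro n ν hν
  obtain ⟨e, he, h⟩ := hDOM n ν hν
  refine ⟨e, he, ?_⟩
  intro R M S Γ _ _ _ _ _ A X hX hL
  refine ⟨?_, ?_⟩
  · intro P U hP hU hPU hTF γ m
    let ρ' : Γ →* Module.End R (M ⧸ U) :=
      { toFun := fun γ => U.mapQ U (A.ρ γ) (fun m hm => hU γ m hm)
        map_one' := by
          apply Submodule.linearMap_qext
          ext m
          rw [LinearMap.comp_apply, LinearMap.comp_apply, Submodule.mkQ_apply,
            Submodule.mapQ_apply, map_one]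
          rfl
        map_mul' := by
          intro a b
          apply Submodule.linearMap_qext
          ext m
          rw [LinearMap.comp_apply, LinearMap.comp_apply, Submodule.mkQ_apply,
            Submodule.mapQ_apply, map_mul, Module.End.mul_apply, Module.End.mul_apply,
            Submodule.mapQ_apply, Submodule.mapQ_apply] }
    have hρ : ∀ γ m, ρ' γ (U.mkQ m) = U.mkQ (A.ρ γ m) := fun γ m => rfl
    have hspan : Submodule.span R (Set.range fun i => U.mkQ (A.g i)) = ⊤ := by
      have h1 : (Set.range fun i => U.mkQ (A.g i)) = U.mkQ '' Set.range A.g := by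
        rw [← Set.range_comp]
        rfl
      rw [h1, Submodule.span_image, A.span, Submodule.map_top, Submodule.range_mkQ]
    have hLX : LX ν X ρ' := by
      intro l hl
      have h1 := hL l hl
      rw [← map_pow] at h1 ⊢
      apply Submodule.linearMap_qext
      ext m
      rw [LinearMap.comp_apply, LinearMap.comp_apply, hρ, h1]
      rfl
    have h1 := h R (M ⧸ U) Γ P X ρ' (fun i => U.mkQ (A.g i)) hP hspan
      (by
        intro r hr q
        obtain ⟨m, rfl⟩ := U.mkQ_surjective q
        rw [← map_smul, Submodule.mkQ_apply, Submodule.Quotient.mk_eq_zero]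
        exact hPU r hr m)
      (by
        intro r q hq
        obtain ⟨m, rfl⟩ := U.mkQ_surjective q
        rw [← map_smul, Submodule.mkQ_apply, Submodule.Quotient.mk_eq_zero] at hq
        rcases hTF r m hq with h2 | h2
        · exact Or.inl h2
        · right
          rw [Submodule.mkQ_apply, Submodule.Quotient.mk_eq_zero]
          exact h2)
      hX hLX γ
    have h2 := congrArg (fun f => f (U.mkQ m)) h1
    simp only [hρ] at h2
    have h3 : U.mkQ (A.ρ (γ ^ e) m) = U.mkQ m := h2
    rw [Submodule.mkQ_apply, Submodule.mkQ_apply, Submodule.Quotient.eq] at h3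
    exact h3
  · intro γ
    obtain ⟨l, hl, rfl⟩ := exists_list hX γ
    refine ⟨ν l.length, hν _, ?_⟩
    rw [map_pow]
    exact hL l hl

end Pool.Agent.H70.LGR
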